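import Pool.Agent.Helper13.JS.St

/-! Project JS, module FK. -/

set_option autoImplicit false

namespace Pool.Agent.Helper19.JS

open Finset ArithmeticFunction Pool.Agent.Helper13.JS
open Pool.Agent.Helper13.JC (Cov E1 offSum mert)

/-- the mass of the primes between `x ^ κ` and `x` -/
theorem primes_window (κ : ℝ) (hκ : 0 < κ) (hκ1 : κ ≤ 1) : ∃ C' : ℝ, 0 ≤ C' ∧ ∀ x : ℕ,
    (2 : ℝ) ^ (2 / κ) ≤ (x : ℝ) →
      ∑ p ∈ (Icc 1 x).filter (fun p : ℕ => p.Prime ∧ (x : ℝ) ^ κ < (p : ℝ)), 1 / (p : ℝ) ≤ C' := by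
  obtain ⟨C, hC, h⟩ := mert
  have hl : 0 ≤ Real.log (2 / κ) := by
    apply Real.log_nonneg
    rw [le_div_iff₀ hκ]; linarith
  refine ⟨Real.log (2 / κ) + 2 * C, by linarith, ?_⟩
  intro x hx
  have h2κ : (0 : ℝ) < 2 / κ := by positivity
  have hx1 : (1 : ℝ) < x := lt_of_lt_of_le (Real.one_lt_rpow (by norm_num) h2κ) hx
  have hx0 : (0 : ℝ) < x := by linarith
  set y : ℝ := (x : ℝ) ^ (κ / 2) with hy
  have hy2 : 2 ≤ y := by
    have h1 : ((2 : ℝ) ^ (2 / κ)) ^ (κ / 2) = 2 := by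
      rw [← Real.rpow_mul (by norm_num)]
      have : 2 / κ * (κ / 2) = 1 := by field_simp
      rw [this, Real.rpow_one]
    rw [← h1]
    exact Real.rpow_le_rpow (by positivity) hx (by linarith)
  have hyy : (x : ℝ) ^ κ = y * y := by
    rw [hy, ← Real.rpow_add hx0]; congr 1; ring
  set w : ℕ := ⌊(x : ℝ) ^ κ⌋₊ with hw
  have hw1 : y ≤ (w : ℝ) := by
    have h1 := Nat.lt_floor_add_one ((x : ℝ) ^ κ)
    rw [hyy] at h1
    have : y * y < (w : ℝ) + 1 := by rw [hw, hyy]; exact h1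
    nlinarith
  have hw2 : 2 ≤ w := by
    have : (2 : ℝ) ≤ (w : ℝ) := hy2.trans hw1
    exact_mod_cast this
  have hx2 : 2 ≤ x := by
    have : 1 < x := by exact_mod_cast hx1
    omega
  have hwx : (w : ℝ) ≤ (x : ℝ) ^ κ := Nat.floor_le (by positivity)
  have hxκ : (x : ℝ) ^ κ ≤ x := by
    calc (x : ℝ) ^ κ ≤ (x : ℝ) ^ (1 : ℝ) := Real.rpow_le_rpow_of_exponent_le hx1.le hκ1
      _ = x := Real.rpow_one _
  have hwx2 : w ≤ x := by
    have : (w : ℝ) ≤ x := hwx.trans hxκ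
    exact_mod_cast this
  have hlogx : 0 < Real.log x := Real.log_pos hx1
  have hlogw : κ / 2 * Real.log x ≤ Real.log w := by
    rw [← Real.log_rpow hx0]
    exact Real.log_le_log (by linarith) hw1
  have hlogw0 : 0 < Real.log w := lt_of_lt_of_le (by positivity) hlogw
  have hll : Real.log (Real.log x) ≤ Real.log (2 / κ) + Real.log (Real.log w) := by
    rw [← Real.log_mul h2κ.ne' hlogw0.ne']
    apply Real.log_le_log hlogx
    calc Real.log x = 2 / κ * (κ / 2 * Real.log x) := by field_simp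
      _ ≤ _ := mul_le_mul_of_nonneg_left hlogw h2κ.le
  have hsx := abs_le.1 (h x hx2)
  have hsw := abs_le.1 (h w hw2)
  have hsplit : ∑ s ∈ (Icc 1 x).filter Nat.Prime, 1 / (s : ℝ) =
      ∑ s ∈ (Icc 1 w).filter Nat.Prime, 1 / (s : ℝ) +
      ∑ p ∈ (Icc 1 x).filter (fun p : ℕ => p.Prime ∧ (x : ℝ) ^ κ < (p : ℝ)), 1 / (p : ℝ) := by
    rw [← Finset.sum_filter_add_sum_filter_not ((Icc 1 x).filter Nat.Prime)
      (fun p : ℕ => (p : ℝ) ≤ (x : ℝ) ^ κ)]
    congr 1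
    · apply Finset.sum_congr _ (fun _ _ => rfl)
      ext p
      simp only [mem_filter, mem_Icc]
      constructor
      · rintro ⟨⟨⟨a, b⟩, c⟩, d⟩
        exact ⟨⟨a, Nat.le_floor d⟩, c⟩
      · rintro ⟨⟨a, b⟩, c⟩
        refine ⟨⟨⟨a, b.trans hwx2⟩, c⟩, le_trans ?_ hwx⟩
        exact_mod_cast b
    · apply Finset.sum_congr _ (fun _ _ => rfl)
      ext p
      simp only [mem_filter, mem_Icc, not_le]
      tauto
  linarith [hsx.1, hsx.2, hsw.1, hsw.2]

theorem PE_le_one (E : Finset ℕ) (N : ℕ) (hE : ∀ p ∈ E, p.Prime) : PE E N ≤ 1 := by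
  unfold PE
  apply Finset.prod_le_one
  · intro p hp
    have h2 : (2 : ℝ) ≤ p := by exact_mod_cast (hE p (mem_filter.1 hp).1).two_le
    have : 1 / (p : ℝ) ≤ 1 / 2 := one_div_le_one_div_of_le (by norm_num) h2
    linarith
  · intro p _
    have : 0 ≤ 1 / (p : ℝ) := by positivity
    linarith

theorem ms_nonneg (E : Finset ℕ) (u v : ℝ) : 0 ≤ ms E u v := by
  unfold ms
  apply Finset.sum_nonneg
  intro p _
  positivity

/-- additivity of the mass -/
theorem ms_add (E : Finset ℕ) (t u v : ℝ) (htu : t ≤ u) (huv : u ≤ v) :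
    ms E t v = ms E t u + ms E u v := by
  classical
  unfold ms
  rw [← Finset.sum_filter_add_sum_filter_not (E.filter (fun p : ℕ => t < (p : ℝ) ∧ (p : ℝ) ≤ v))
    (fun p : ℕ => (p : ℝ) ≤ u)]
  congr 1
  · apply Finset.sum_congr _ (fun _ _ => rfl)
    ext p
    simp only [mem_filter]
    constructor
    · rintro ⟨⟨a, b, c⟩, d⟩; exact ⟨a, b, d⟩
    · rintro ⟨a, b, d⟩; exact ⟨⟨a, b, d.trans huv⟩, d⟩
  · apply Finset.sum_congr _ (fun _ _ => rfl)
    ext p
    simp only [mem_filter, not_le]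
    constructor
    · rintro ⟨⟨a, b, c⟩, d⟩; exact ⟨a, d, c⟩
    · rintro ⟨a, d, c⟩; exact ⟨⟨a, lt_of_le_of_lt htu d, c⟩, d⟩

/-- one of the windows has small mass -/
theorem pigeon (E : Finset ℕ) (κ K ε : ℝ) (x : ℝ) (I : ℕ) (hκ : 0 < κ) (hx : 1 < x)
    (hK : ms E 0 (x ^ κ) ≤ K) (hI : K < I * ε) :
    ∃ i < I, ms E (x ^ (κ / 2 ^ (i + 1))) ((x ^ (κ / 2 ^ (i + 1))) ^ 2) ≤ ε := by
  by_contra hcon
  push Not at hcon
  have hx0 : 0 < x := by linarith
  have hsq : ∀ i : ℕ, (x ^ (κ / 2 ^ (i + 1))) ^ 2 = x ^ (κ / 2 ^ i) := by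
    intro i
    rw [← Real.rpow_natCast, ← Real.rpow_mul hx0.le]
    congr 1
    push_cast
    rw [pow_succ]
    field_simp
  have hstep : ∀ n : ℕ, n ≤ I → n * ε ≤ ms E 0 (x ^ κ) - ms E 0 (x ^ (κ / 2 ^ n)) := by
    intro n
    induction n with
    | zero => intro _; simp
    | succ n ih =>
      intro hn
      have h1 := ih (by omega)
      have h2 := hcon n (by omega)
      rw [hsq n] at h2
      have h3 : ms E 0 (x ^ (κ / 2 ^ n)) =
          ms E 0 (x ^ (κ / 2 ^ (n + 1))) + ms E (x ^ (κ / 2 ^ (n + 1))) (x ^ (κ / 2 ^ n)) := by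
        apply ms_add
        · positivity
        · apply Real.rpow_le_rpow_of_exponent_le hx.le
          rw [pow_succ]
          apply div_le_div_of_nonneg_left hκ.le (by positivity)
          have : (0 : ℝ) < 2 ^ n := by positivity
          linarith
      push_cast
      linarith
  have h4 := hstep I le_rfl
  have h5 := ms_nonneg E 0 (x ^ (κ / 2 ^ I))
  linarith

theorem hFK (hEK : StEK) : StFK := by
  classical
  intro κ hκ0 hκ1 hCG K
  obtain ⟨C', hC', hPW⟩ := primes_window κ hκ0 (by linarith)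
  obtain ⟨c₁, hc₁, hEK1⟩ := hEK (K + C')
  obtain ⟨ε, hε, hCG1⟩ := hCG c₁ hc₁
  obtain ⟨I, hI⟩ := exists_nat_gt (K / ε)
  have hI2 : K < I * ε := by rwa [div_lt_iff₀ hε] at hI
  have h2I : (1 : ℝ) ≤ 2 ^ (I + 1) := one_le_pow₀ (by norm_num)
  have hκI : κ / 2 ^ (I + 1) ≤ κ := div_le_self hκ0.le h2I
  obtain ⟨C, x₀, hC, hx₀, hmain⟩ := hCG1 (κ / 2 ^ (I + 1)) (by positivity) (by linarith)
  refine ⟨C, max x₀ ((2 : ℝ) ^ (2 / κ)), hC, ?_⟩
  intro x y a b hx hcov hb hon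
  have hxx₀ : x₀ ≤ x := (le_max_left _ _).trans hx
  have hx2 : (2 : ℝ) ^ (2 / κ) ≤ (x : ℝ) := (le_max_right _ _).trans hx
  have hx1 : (1 : ℝ) < x := by linarith
  have hx0 : (0 : ℝ) < x := by linarith
  set a₀ : ℕ → ℤ := fun p => a p - b with ha₀
  set E : Finset ℕ := On x a₀ with hE
  have hEp : ∀ p ∈ E, p.Prime := by
    intro p hp
    rw [hE] at hp
    unfold On at hp
    exact (mem_filter.1 hp).2.1
  -- the mass of `E` up to `x ^ κ`
  have hms1 : ms E 0 ((x : ℝ) ^ κ) ≤ K := by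
    refine le_trans ?_ hon
    unfold ms onSum
    apply Finset.sum_le_sum_of_subset_of_nonneg
    · intro p hp
      rw [hE] at hp
      unfold On at hp
      simp only [mem_filter, mem_Icc] at hp ⊢
      obtain ⟨⟨⟨h1, h2⟩, h3, h4⟩, h5, h6⟩ := hp
      refine ⟨⟨h1, Nat.le_floor h6⟩, h3, h5, ?_⟩
      rw [Int.modEq_iff_dvd, ← Int.dvd_neg]
      simpa [ha₀] using h4
    · intro p _ _
      positivity
  have hmsN : ∀ N : ℕ, ms E 0 (N : ℝ) ≤ K + C' := by
    intro N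
    have h1 : ms E 0 (N : ℝ) ≤ ms E 0 ((x : ℝ) ^ κ) +
        ∑ p ∈ (Icc 1 x).filter (fun p : ℕ => p.Prime ∧ (x : ℝ) ^ κ < (p : ℝ)), 1 / (p : ℝ) := by
      unfold ms
      rw [← Finset.sum_filter_add_sum_filter_not
        (E.filter (fun p : ℕ => 0 < (p : ℝ) ∧ (p : ℝ) ≤ (N : ℝ))) (fun p : ℕ => (p : ℝ) ≤ (x : ℝ) ^ κ)]
      apply add_le_add
      · apply Finset.sum_le_sum_of_subset_of_nonneg
        · intro p hp
          simp only [mem_filter] at hp ⊢
          exact ⟨hp.1.1, hp.1.2.1, hp.2⟩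
        · intro p _ _
          positivity
      · apply Finset.sum_le_sum_of_subset_of_nonneg
        · intro p hp
          rw [hE] at hp
          unfold On at hp
          simp only [mem_filter, mem_Icc, not_le] at hp ⊢
          exact ⟨hp.1.1.1, hp.1.1.2.1, hp.2⟩
        · intro p _ _
          positivity
    have h2 := hPW x hx2
    linarith
  have hDens : Dens x a₀ c₁ := by
    intro N hN1 hN2
    have hN : 1 ≤ N := by
      have h1 : (1 : ℝ) ≤ (x : ℝ) ^ (1 / 4 : ℝ) := Real.one_le_rpow hx1.le (by norm_num)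
      have h2 : (1 : ℝ) ≤ N := h1.trans hN1
      exact_mod_cast h2
    have h3 := hEK1 E N hEp hN (hmsN N)
    have h4 := PE_le_one E N hEp
    have h5 : 0 ≤ c₁ * (N : ℝ) := by positivity
    calc c₁ * N * PE (On x a₀) N ≤ c₁ * N * 1 := mul_le_mul_of_nonneg_left h4 h5
      _ = c₁ * N := mul_one _
      _ ≤ Fr (On x a₀) N := h3
  obtain ⟨i, hi, hmsi⟩ := pigeon E κ K ε x I hκ0 hx1 hms1 hI2
  refine hmain x y a b ((x : ℝ) ^ (κ / 2 ^ (i + 1))) hxx₀ hcov hb ?_ ?_ hDens hmsi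
  · apply Real.rpow_le_rpow_of_exponent_le hx1.le
    apply div_le_div_of_nonneg_left hκ0.le (by positivity)
    exact pow_le_pow_right₀ (by norm_num) (by omega)
  · apply Real.rpow_le_rpow_of_exponent_le hx1.le
    have h1 : (1 : ℝ) ≤ 2 ^ (i + 1) := one_le_pow₀ (by norm_num)
    have h2 : κ / 2 ^ (i + 1) ≤ κ := div_le_self hκ0.le h1
    linarith

end Pool.Agent.Helper19.JS
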