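import Pool.Agent.Helper13.JS.St

/-! Project JS, module PC. -/

set_option autoImplicit false

namespace Pool.Agent.Helper19.JS

open Finset ArithmeticFunction Pool.Agent.Helper13.JS

/-- an elementary inequality -/
theorem exp_le_one_sub {t : ℝ} (h0 : 0 ≤ t) (h1 : t ≤ 1 / 2) : Real.exp (-2 * t) ≤ 1 - t := by
  have h2 : 1 + 2 * t ≤ Real.exp (2 * t) := by
    have := Real.add_one_le_exp (2 * t)
    linarith
  have h3 : Real.exp (-2 * t) = (Real.exp (2 * t))⁻¹ := by
    rw [← Real.exp_neg]; congr 1; ring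
  rw [h3]
  have hpos : 0 < Real.exp (2 * t) := Real.exp_pos _
  rw [inv_le_iff_one_le_mul₀ hpos]
  have h4 : (1 - t) * (1 + 2 * t) ≤ (1 - t) * Real.exp (2 * t) :=
    mul_le_mul_of_nonneg_left h2 (by linarith)
  nlinarith [mul_nonneg h0 (sub_nonneg.2 h1)]

/-- the product over a window -/
theorem PE_split (E : Finset ℕ) (M N : ℕ) (hMN : M ≤ N) :
    PE E N = PE E M * ∏ p ∈ E.filter (fun p => M < p ∧ p ≤ N), (1 - 1 / (p : ℝ)) := by
  unfold PE
  rw [← Finset.prod_filter_mul_prod_filter_not (E.filter (· ≤ N)) (fun p => p ≤ M)]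
  congr 1
  · apply Finset.prod_congr _ (fun _ _ => rfl)
    ext p
    simp only [mem_filter]
    constructor
    · rintro ⟨⟨a, _⟩, c⟩; exact ⟨a, c⟩
    · rintro ⟨a, c⟩; exact ⟨⟨a, c.trans hMN⟩, c⟩
  · apply Finset.prod_congr _ (fun _ _ => rfl)
    ext p
    simp only [mem_filter, not_le]
    constructor
    · rintro ⟨⟨a, b⟩, c⟩; exact ⟨a, c, b⟩
    · rintro ⟨a, c, b⟩; exact ⟨⟨a, b⟩, c⟩

theorem PE_pos (E : Finset ℕ) (N : ℕ) (hE : ∀ p ∈ E, p.Prime) : 0 < PE E N := by
  unfold PE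
  apply Finset.prod_pos
  intro p hp
  have h2 : (2 : ℝ) ≤ p := by exact_mod_cast (hE p (mem_filter.1 hp).1).two_le
  have : 1 / (p : ℝ) ≤ 1 / 2 := one_div_le_one_div_of_le (by norm_num) h2
  linarith

/-- the first case -/
theorem caseA (E : Finset ℕ) (w u : ℝ) (M N : ℕ) (hE : ∀ p ∈ E, p.Prime)
    (hms : ms E u w ≤ 1 / 2) (hu : u ≤ M) (hMN : M ≤ N) (hN : (N : ℝ) ≤ w) :
    PE E M ≤ 3 * PE E N := by
  classical
  have hP := PE_pos E M hE
  rw [PE_split E M N hMN]
  have hsum : ∑ p ∈ E.filter (fun p => M < p ∧ p ≤ N), 1 / (p : ℝ) ≤ 1 / 2 := by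
    refine le_trans ?_ hms
    unfold ms
    apply Finset.sum_le_sum_of_subset_of_nonneg
    · intro p hp
      simp only [mem_filter] at hp ⊢
      refine ⟨hp.1, lt_of_le_of_lt hu (by exact_mod_cast hp.2.1), le_trans ?_ hN⟩
      exact_mod_cast hp.2.2
    · intro p _ _
      positivity
  have hprod : Real.exp (-1) ≤ ∏ p ∈ E.filter (fun p => M < p ∧ p ≤ N), (1 - 1 / (p : ℝ)) := by
    calc Real.exp (-1) ≤ Real.exp (∑ p ∈ E.filter (fun p => M < p ∧ p ≤ N), (-2 * (1 / (p : ℝ)))) := by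
          apply Real.exp_le_exp.2
          rw [← Finset.mul_sum]
          linarith
      _ = ∏ p ∈ E.filter (fun p => M < p ∧ p ≤ N), Real.exp (-2 * (1 / (p : ℝ))) := Real.exp_sum _ _
      _ ≤ ∏ p ∈ E.filter (fun p => M < p ∧ p ≤ N), (1 - 1 / (p : ℝ)) := by
          apply Finset.prod_le_prod
          · intro p _; exact (Real.exp_pos _).le
          · intro p hp
            have h2 : (2 : ℝ) ≤ p := by exact_mod_cast (hE p (mem_filter.1 hp).1).two_le
            exact exp_le_one_sub (by positivity) (one_div_le_one_div_of_le (by norm_num) h2)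
  have he : (1 : ℝ) / 3 ≤ Real.exp (-1) := by
    rw [Real.exp_neg, one_div]
    apply inv_anti₀ (Real.exp_pos 1)
    linarith [Real.exp_one_lt_d9]
  have h3 : (1 : ℝ) / 3 ≤ ∏ p ∈ E.filter (fun p => M < p ∧ p ≤ N), (1 - 1 / (p : ℝ)) := he.trans hprod
  nlinarith

theorem hPC (hMP : StMP) : StPC := by
  obtain ⟨C, hC1, hMP1, -, -, -⟩ := hMP
  refine ⟨11 * C, by linarith, ?_⟩
  intro η hη0 hη1
  have hlog2 : 0 < Real.log 2 := Real.log_pos (by norm_num)
  refine ⟨(2 : ℝ) ^ (12 / η), ?_, ?_⟩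
  · have h1 : (1 : ℝ) ≤ 12 / η := by
      rw [le_div_iff₀ hη0]; linarith
    calc (2 : ℝ) = (2 : ℝ) ^ (1 : ℝ) := (Real.rpow_one 2).symm
      _ ≤ (2 : ℝ) ^ (12 / η) := Real.rpow_le_rpow_of_exponent_le (by norm_num) h1
  intro E w M N hE hw hms hM hMN hNl hNw
  have h12 : (0 : ℝ) < 12 / η := by positivity
  have hw1 : 1 < w := lt_of_lt_of_le (Real.one_lt_rpow (by norm_num) h12) hw
  have hw0 : 0 < w := by linarith
  have hlw : 12 / η * Real.log 2 ≤ Real.log w := by
    rw [← Real.log_rpow (by norm_num)]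
    exact Real.log_le_log (by positivity) hw
  have hηl : 12 * Real.log 2 ≤ η * Real.log w := by
    have := mul_le_mul_of_nonneg_left hlw hη0.le
    calc 12 * Real.log 2 = η * (12 / η * Real.log 2) := by field_simp
      _ ≤ _ := this
  have hPN := PE_pos E N hE
  have hPM := PE_pos E M hE
  by_cases hcase : w ^ η ≤ (M : ℝ)
  · have := caseA E w (w ^ η) M N hE hms hcase hMN hNw
    nlinarith
  push Not at hcase
  -- the intermediate point
  set M' : ℕ := ⌈w ^ η⌉₊ with hM'
  have hwη : 0 < w ^ η := Real.rpow_pos_of_pos hw0 _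
  have hwη1 : 1 ≤ w ^ η := Real.one_le_rpow hw1.le hη0.le
  have hM'1 : w ^ η ≤ (M' : ℝ) := Nat.le_ceil _
  have hM'2 : (M' : ℝ) ≤ 2 * w ^ η := by
    have := (Nat.ceil_lt_add_one hwη.le).le
    linarith
  have hMM' : M ≤ M' := by
    have : (M : ℝ) ≤ (M' : ℝ) := by linarith
    exact_mod_cast this
  have hM'N : M' ≤ N := by
    apply Nat.ceil_le.2
    refine le_trans ?_ hNl
    exact Real.rpow_le_rpow_of_exponent_le hw1.le (by linarith)
  have hA := caseA E w (w ^ η) M' N hE hms hM'1 hM'N hNw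
  -- M is at least two
  have hM0 : (0 : ℝ) < M := by
    have : 0 < w ^ (η / 2) := Real.rpow_pos_of_pos hw0 _
    linarith
  have hlogM : η / 2 * Real.log w ≤ Real.log 2 + Real.log M := by
    rw [← Real.log_rpow hw0, ← Real.log_mul (by norm_num) hM0.ne']
    exact Real.log_le_log (Real.rpow_pos_of_pos hw0 _) hM
  have hlogM2 : Real.log 2 * 5 ≤ Real.log M := by linarith
  have hM2 : 2 ≤ M := by
    by_contra hcon
    have : M ≤ 1 := by omega
    have h1 : (M : ℝ) ≤ 1 := by exact_mod_cast this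
    have := Real.log_nonpos hM0.le h1
    linarith
  have hlogM' : Real.log M' ≤ Real.log 2 + η * Real.log w := by
    rw [← Real.log_rpow hw0, ← Real.log_mul (by norm_num) hwη.ne']
    exact Real.log_le_log (by linarith) hM'2
  have hlogM'0 : 0 < Real.log M' := by
    have : Real.log M ≤ Real.log M' := Real.log_le_log hM0 (by exact_mod_cast hMM')
    linarith
  have hB := hMP1 E M M' hE hM2 hMM'
  -- log M / log M' is at least 2 / 7
  have hratio : 3 / (11 * C) ≤ Real.log M / (C * Real.log M') := by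
    rw [div_le_div_iff₀ (by positivity) (by positivity)]
    have h1 : 3 * Real.log M' ≤ 11 * Real.log M := by
      nlinarith
    nlinarith
  have hC : 0 < C := by linarith
  have h5 : PE E M * (3 / (11 * C)) ≤ PE E M' :=
    (mul_le_mul_of_nonneg_left hratio hPM.le).trans hB
  have h6 : PE E M * (3 / (11 * C)) ≤ 3 * PE E N := h5.trans hA
  have h7 : PE E M = PE E M * (3 / (11 * C)) * (11 * C / 3) := by
    field_simp
  rw [h7]
  calc PE E M * (3 / (11 * C)) * (11 * C / 3) ≤ 3 * PE E N * (11 * C / 3) :=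
        mul_le_mul_of_nonneg_right h6 (by positivity)
    _ = 11 * C * PE E N := by ring

end Pool.Agent.Helper19.JS
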